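import Pool.Agent.Lib.H8SR.A2
import Pool.Agent.Lib.H8SR.E5
import Pool.Agent.Lib.H8SR.Nil
import Pool.Agent.Lib.H8SR.FinA
import Pool.Agent.Lib.SRSard.Statement

/-!
# A simply connected nilpotent polarized Lie group whose abnormal set is everything

The group is `H8SR.SRG` (`ℝ^Idx` with a polynomial group law; proof in words:
`Lib/H8SR/PROOF.md`).  The definitions used by the statement are in `Lib/SRSard/Statement.lean`
(polarization, horizontal curve, endpoint map, critical control, `Abn`).
-/

namespace Pool.Agent.Results.MP_525deb_gt.EveryPointAbnormal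

open SRS
open scoped Manifold ContDiff

theorem linearIndependent_bas :
    LinearIndependent ℝ (fun j => (H8SR.SRP.bas j : GroupLieAlgebra 𝓘(ℝ, H8SR.SRG) H8SR.SRG)) := by
  have h1 : Function.Injective H8SR.hI := by
    intro i j h
    exact (Fintype.equivFin H8SR.HIdx).symm.injective (Subtype.ext h)
  have h2 : LinearIndependent ℝ (fun j : Fin H8SR.mH => (Pi.single (H8SR.hI j) 1 : H8SR.Idx → ℝ)) :=
    (Pi.linearIndependent_single_one H8SR.Idx ℝ).comp _ h1
  have h3 : (fun j => (H8SR.SRP.bas j : H8SR.SRG)) =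
      fun j : Fin H8SR.mH => (Pi.single (H8SR.hI j) 1 : H8SR.Idx → ℝ) := by
    funext j
    exact H8SR.bas_eq j
  change LinearIndependent ℝ (fun j => (H8SR.SRP.bas j : H8SR.SRG))
  rw [h3]
  exact h2

theorem abn_univ : Abn H8SR.SRG H8SR.endMap = Set.univ := by
  rw [H8SR.abn_eq]
  exact H8SR.Abn_eq_univ H8SR.sector

/-- **There is a simply connected nilpotent polarized Lie group in which every point is the endpoint
of an abnormal curve issued from the identity.** -/
theorem result : ∃ (E : Type) (_ : NormedAddCommGroup E) (_ : NormedSpace ℝ E)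
    (_ : FiniteDimensional ℝ E) (G : Type) (_ : TopologicalSpace G) (_ : ChartedSpace E G)
    (_ : Group G) (_ : LieGroup 𝓘(ℝ, E) ∞ G) (m : ℕ) (b : Fin m → GroupLieAlgebra 𝓘(ℝ, E) G)
    (Φ : Controls m → G),
    SimplyConnectedSpace G ∧ T2Space G ∧ Group.IsNilpotent G ∧ LinearIndependent ℝ b ∧
    BracketGenerating b ∧ IsEndpointMap b Φ ∧ Abn E Φ = Set.univ :=
  ⟨H8SR.SRG, inferInstance, inferInstance, inferInstance, H8SR.SRG, inferInstance, inferInstance,
    inferInstance, inferInstance, H8SR.mH, H8SR.SRP.bas, H8SR.endMap, inferInstance, inferInstance,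
    inferInstance, linearIndependent_bas, H8SR.bracketGen, H8SR.isEndpointMap_endMap, abn_univ⟩

end Pool.Agent.Results.MP_525deb_gt.EveryPointAbnormal
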